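import Pool.Agent.Y766.R7.Stm
import Pool.Agent.Y779.R3.Klo

/-!
# TD: the third difference of the square root
-/

set_option autoImplicit false

namespace Pool.Agent.Y948.R7

open Pool.Agent.Y766.R7 Pool.Agent.Y779.R3

variable {p r : ℕ}

theorem inv_mul {x : ZMod (p ^ r)} (h : IsUnit x) : x * x⁻¹ = 1 :=
  ZMod.mul_inv_of_unit x h

theorem unit_four (hp : p.Prime) (hp2 : p ≠ 2) : IsUnit (4 : ZMod (p ^ r)) := by
  have h := (unit_two (r := r) hp hp2).mul (unit_two (r := r) hp hp2)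
  have e : (2 : ZMod (p ^ r)) * 2 = 4 := by norm_num
  rwa [e] at h

theorem ndvd_of {h h0 : ℤ} (h1 : ¬ (p : ℤ) ∣ h0) (h2 : (p : ℤ) ∣ h - h0) : ¬ (p : ℤ) ∣ h := by
  intro h3
  apply h1
  have := dvd_sub h3 h2
  simpa using this

theorem td (hsq : S_SQ) : S_TD := by
  intro p r a hp hp2 hr ha hra h0 h t1 t2 t3 hh0 hh ht1 ht2 ht3
  have hh1 := ndvd_of hh0 hh
  have uh : IsUnit (h : ZMod (p ^ r)) := unit_int hp hh1
  have u4 : IsUnit (4 * (h : ZMod (p ^ r))) := (unit_four hp hp2).mul uh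
  have e4 := inv_mul u4
  set i4 : ZMod (p ^ r) := (4 * (h : ZMod (p ^ r)))⁻¹ with hi4
  have h4 := (hsq p r hp hp2 hr).2.2.2.1
  -- the value at a shifted point
  have key : ∀ t : ℤ, (p : ℤ) ^ a ∣ t → aa p r h0 (h + t) = aa p r h0 h *
      (1 + 2 * (t * i4) - 2 * (t * i4) ^ 2 + 4 * (t * i4) ^ 3 - 10 * (t * i4) ^ 4 +
        28 * (t * i4) ^ 5 - 84 * (t * i4) ^ 6) := by
    intro t ht
    obtain ⟨t', rfl⟩ := ht
    have e1 : ((((p : ℤ) ^ a * t' : ℤ) : ZMod (p ^ r)) * i4) =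
        p * (p ^ (a - 1) * (t' : ZMod (p ^ r)) * i4) := by
      push_cast
      rw [← mul_assoc, ← mul_assoc, ← pow_succ']
      have : a - 1 + 1 = a := by omega
      rw [this]
    have e2 : ((((p : ℤ) ^ a * t' : ℤ) : ZMod (p ^ r)) * i4) ^ 7 = 0 := by
      push_cast
      rw [mul_pow, mul_pow, ← pow_mul, pi_zero (by omega), zero_mul, zero_mul]
    have e3 := h4 _ _ e1 e2
    rw [← e3]
    unfold aa Pool.Agent.Y766.R7.sq
    rw [← mul_pow]
    congr 1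
    push_cast
    linear_combination (-(((p : ZMod (p ^ r)) ^ a * t') * (h0 : ZMod (p ^ r))⁻¹)) * e4
  have d1 : ∀ {x y : ℤ}, (p : ℤ) ^ a ∣ x → (p : ℤ) ^ a ∣ y → (p : ℤ) ^ a ∣ x + y :=
    fun hx hy => dvd_add hx hy
  unfold dif3 eh EE
  rw [show h + t1 + t2 + t3 = h + (t1 + t2 + t3) by ring,
    show h + t1 + t2 = h + (t1 + t2) by ring, show h + t1 + t3 = h + (t1 + t3) by ring,
    show h + t2 + t3 = h + (t2 + t3) by ring,
    key _ (d1 (d1 ht1 ht2) ht3), key _ (d1 ht1 ht2), key _ (d1 ht1 ht3), key _ (d1 ht2 ht3),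
    key _ ht1, key _ ht2, key _ ht3, ← hi4]
  push_cast
  ring

end Pool.Agent.Y948.R7
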