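import Pool.Agent.Y948.R7.Td

/-!
# VAR: linear approximation of the phase
-/

set_option autoImplicit false

namespace Pool.Agent.Y948.R7

open Pool.Agent.Y766.R7 Pool.Agent.Y779.R3

variable {p r : ℕ}

theorem cong_mul {R : Type} [CommRing R] {T a a' b b' : R} (h1 : T * a = T * a')
    (h2 : T * b = T * b') : T * (a * b) = T * (a' * b') := by
  linear_combination b * h1 + a' * h2

theorem unit_add_nil [NeZero (p ^ r)] {a : ZMod (p ^ r)} (ha : IsUnit a) (z : ZMod (p ^ r)) :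
    IsUnit (a + p * z) := by
  obtain ⟨b, hb⟩ := ha.exists_right_inv
  have h1 : IsUnit (1 + (p : ZMod (p ^ r)) * (b * z)) := (nilp _).isUnit_one_add
  have h2 := ha.mul h1
  have h3 : a * (1 + (p : ZMod (p ^ r)) * (b * z)) = a + p * z := by
    linear_combination (p * z) * hb
  rwa [h3] at h2

theorem unit_24 (hp : p.Prime) (hp5 : 5 ≤ p) : IsUnit (24 : ZMod (p ^ r)) := by
  have h : ¬ (p : ℤ) ∣ 24 := by
    intro h
    have h' : p ∣ 24 := by exact_mod_cast h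
    have h2 : p ∣ 2 ^ 3 * 3 := by
      have : 2 ^ 3 * 3 = 24 := by norm_num
      rwa [this]
    rcases (Nat.Prime.dvd_mul hp).1 h2 with h3 | h3
    · have := Nat.le_of_dvd (by norm_num) (hp.dvd_of_dvd_pow h3)
      omega
    · have := Nat.le_of_dvd (by norm_num) h3
      omega
  have := unit_int (r := r) hp h
  simpa using this

theorem unit_eh [NeZero (p ^ r)] (hp : p.Prime) (hp5 : 5 ≤ p) {t1 t2 t3 : ℤ}
    (h1 : (p : ℤ) ∣ t1) (h2 : (p : ℤ) ∣ t2) (h3 : (p : ℤ) ∣ t3) (h : ℤ) :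
    IsUnit (eh p r t1 t2 t3 h) := by
  obtain ⟨a, rfl⟩ := h1
  obtain ⟨b, rfl⟩ := h2
  obtain ⟨c, rfl⟩ := h3
  unfold eh EE
  set C := (4 * (h : ZMod (p ^ r)))⁻¹
  have := unit_add_nil (unit_24 (r := r) hp hp5)
    (-120 * ((a * C) + (b * C) + (c * C)) + 560 * p * ((a * C) ^ 2 + (b * C) ^ 2 + (c * C) ^ 2) +
    840 * p * ((a * C) * (b * C) + (a * C) * (c * C) + (b * C) * (c * C)) -
    2520 * p ^ 2 * ((a * C) ^ 3 + (b * C) ^ 3 + (c * C) ^ 3) -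
    5040 * p ^ 2 * ((a * C) ^ 2 * (b * C) + (a * C) ^ 2 * (c * C) + (b * C) ^ 2 * (a * C) +
      (b * C) ^ 2 * (c * C) + (c * C) ^ 2 * (a * C) + (c * C) ^ 2 * (b * C)) -
    7560 * p ^ 2 * ((a * C) * (b * C) * (c * C)))
  convert this using 1
  push_cast
  ring

/-- `T aa l0 (l + e x)` -/
theorem aa_add (hsq : S_SQ) (hp : p.Prime) (hp2 : p ≠ 2) (hr : 1 ≤ r) {c : ℕ} (hc : 1 ≤ c)
    {l0 l : ℤ} (hl0 : ¬ (p : ℤ) ∣ l0) (hl : (p : ℤ) ∣ l - l0) {T : ZMod (p ^ r)}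
    (hT : T * ((p : ZMod (p ^ r)) ^ c) ^ 2 = 0) (x : ℤ) :
    T * aa p r l0 (l + (p : ℤ) ^ c * x) =
      T * (aa p r l0 l * (1 + (p : ZMod (p ^ r)) ^ c * x * (l : ZMod (p ^ r))⁻¹ * 2⁻¹)) := by
  have ul : IsUnit (l : ZMod (p ^ r)) := unit_int hp (ndvd_of hl0 hl)
  have el := inv_mul ul
  have e2 : (2 : ZMod (p ^ r)) * 2⁻¹ = 1 := inv_mul (unit_two hp hp2)
  have h5 := (hsq p r hp hp2 hr).2.2.2.2 T ((p : ZMod (p ^ r)) ^ c * x * (l : ZMod (p ^ r))⁻¹)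
    ((p : ZMod (p ^ r)) ^ (c - 1) * x * (l : ZMod (p ^ r))⁻¹) 2⁻¹ (by
      rw [← mul_assoc, ← mul_assoc, ← pow_succ']
      have : c - 1 + 1 = c := by omega
      rw [this]) (by
      linear_combination (x * (l : ZMod (p ^ r))⁻¹) ^ 2 * hT) e2
  have key : aa p r l0 (l + (p : ℤ) ^ c * x) = aa p r l0 l *
      Pool.Agent.Y766.R7.sq p r (1 + (p : ZMod (p ^ r)) ^ c * x * (l : ZMod (p ^ r))⁻¹) := by
    unfold aa Pool.Agent.Y766.R7.sq
    rw [← mul_pow]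
    congr 1
    push_cast
    linear_combination (-(((p : ZMod (p ^ r)) ^ c * x) * (l0 : ZMod (p ^ r))⁻¹)) * el
  rw [key]
  linear_combination aa p r l0 l * h5

theorem var (hsq : S_SQ) : S_VAR := by
  intro p r c hp hp5 hr hc l0 h0 l h t1 t2 t3 hl0 hh0 hl hh ht1 ht2 ht3 T hT x y
  have hp2 : p ≠ 2 := by omega
  have : NeZero (p ^ r) := ⟨(pow_pos hp.pos r).ne'⟩
  have ul : IsUnit (l : ZMod (p ^ r)) := unit_int hp (ndvd_of hl0 hl)
  have uh : IsUnit (h : ZMod (p ^ r)) := unit_int hp (ndvd_of hh0 hh)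
  have e2 : (2 : ZMod (p ^ r)) * 2⁻¹ = 1 := inv_mul (unit_two hp hp2)
  have el := inv_mul ul
  have eh' := inv_mul uh
  have e2l : (2 * (l : ZMod (p ^ r))) * (2 * (l : ZMod (p ^ r)))⁻¹ = 1 :=
    inv_mul ((unit_two hp hp2).mul ul)
  have e4h : (4 * (h : ZMod (p ^ r))) * (4 * (h : ZMod (p ^ r)))⁻¹ = 1 :=
    inv_mul ((unit_four hp hp2).mul uh)
  have hh1 : (p : ℤ) ∣ (h + (p : ℤ) ^ c * y) - h0 := by
    have h1 : (p : ℤ) ∣ (p : ℤ) ^ c * y := (dvd_pow_self _ (by omega)).mul_right _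
    have := dvd_add hh h1
    have e : h - h0 + (p : ℤ) ^ c * y = (h + (p : ℤ) ^ c * y) - h0 := by ring
    rwa [e] at this
  have uh1 : IsUnit ((h + (p : ℤ) ^ c * y : ℤ) : ZMod (p ^ r)) :=
    unit_int hp (ndvd_of hh0 hh1)
  have e4h1 : (4 * ((h + (p : ℤ) ^ c * y : ℤ) : ZMod (p ^ r))) *
      (4 * ((h + (p : ℤ) ^ c * y : ℤ) : ZMod (p ^ r)))⁻¹ = 1 :=
    inv_mul ((unit_four hp hp2).mul uh1)
  have eE := inv_mul (unit_eh (r := r) hp hp5 ht1 ht2 ht3 h)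
  have hA := aa_add hsq hp hp2 hr hc hl0 hl hT x
  have hB := aa_add hsq hp hp2 hr hc hh0 hh hT y
  have i2l : (2 * (l : ZMod (p ^ r)))⁻¹ = 2⁻¹ * (l : ZMod (p ^ r))⁻¹ := by
    linear_combination (-(2 * (l : ZMod (p ^ r)))⁻¹ * (l * (l : ZMod (p ^ r))⁻¹)) * e2 -
      (2 * (l : ZMod (p ^ r)))⁻¹ * el + (2⁻¹ * (l : ZMod (p ^ r))⁻¹) * e2l
  have iE : EE ((t1 : ZMod (p ^ r)) * (4 * (h : ZMod (p ^ r)))⁻¹) (t2 * (4 * (h : ZMod (p ^ r)))⁻¹)
      (t3 * (4 * (h : ZMod (p ^ r)))⁻¹) = eh p r t1 t2 t3 h := rfl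
  unfold psi1 psi2 kap Lam
  rw [i2l]
  generalize hE0 : eh p r t1 t2 t3 h = E0 at *
  have iK : EK ((t1 : ZMod (p ^ r)) * (4 * (h : ZMod (p ^ r)))⁻¹) (t2 * (4 * (h : ZMod (p ^ r)))⁻¹)
      (t3 * (4 * (h : ZMod (p ^ r)))⁻¹) = ek p r t1 t2 t3 h := rfl
  generalize hK0 : ek p r t1 t2 t3 h = K0 at *
  unfold eh
  generalize hC : (4 * (h : ZMod (p ^ r)))⁻¹ = C at *
  generalize hC' : (4 * ((h + (p : ℤ) ^ c * y : ℤ) : ZMod (p ^ r)))⁻¹ = C' at *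
  generalize hA0 : aa p r l0 l = A at *
  generalize hB0 : aa p r h0 h = B at *
  generalize hA1 : aa p r l0 (l + (p : ℤ) ^ c * x) = A' at *
  generalize hB1 : aa p r h0 (h + (p : ℤ) ^ c * y) = B' at *
  generalize hi : (2 : ZMod (p ^ r))⁻¹ = i2 at *
  generalize hL : (l : ZMod (p ^ r))⁻¹ = L at *
  generalize hH : (h : ZMod (p ^ r))⁻¹ = H at *
  generalize hEi : E0⁻¹ = Ei at *
  push_cast at e4h1
  generalize he : (p : ZMod (p ^ r)) ^ c = e at *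
  generalize hx : (x : ZMod (p ^ r)) = x' at *
  generalize hy : (y : ZMod (p ^ r)) = y' at *
  have hH4 : H = 4 * C := by linear_combination (-H) * e4h + 4 * C * eh'
  have hd2 : T * (e * y' * H) ^ 2 = 0 := by linear_combination (y' * H) ^ 2 * hT
  have had : T * ((e * x' * L) * (e * y' * H)) = 0 := by
    linear_combination (x' * L) * (y' * H) * hT
  have hCC : (1 + e * y' * H) * C' = C := by
    rw [hH4]
    linear_combination C * e4h1 - C' * e4h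
  generalize hd : e * y' * H = d at *
  generalize ha : e * x' * L = a at *
  have hC1 : T * C' = T * (C * (1 - d)) := by
    linear_combination C' * hd2 + T * (1 - d) * hCC
  have hC2 : T * C' ^ 2 = T * (C ^ 2 * (1 - 2 * d)) := by
    linear_combination (cong_mul hC1 hC1) + C ^ 2 * hd2
  have hC3 : T * C' ^ 3 = T * (C ^ 3 * (1 - 3 * d)) := by
    linear_combination (cong_mul hC1 hC2) + 2 * C ^ 3 * hd2
  have hE : T * EE ((t1 : ZMod (p ^ r)) * C') (t2 * C') (t3 * C') = T * (E0 - d * K0) := by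
    rw [← iE, ← iK]
    unfold EE EK
    linear_combination (-120 * ((t1 : ZMod (p ^ r)) + t2 + t3)) * hC1 +
      (560 * ((t1 : ZMod (p ^ r)) ^ 2 + t2 ^ 2 + t3 ^ 2) +
        840 * ((t1 : ZMod (p ^ r)) * t2 + t1 * t3 + t2 * t3)) * hC2 +
      (- 2520 * ((t1 : ZMod (p ^ r)) ^ 3 + t2 ^ 3 + t3 ^ 3) -
        5040 * ((t1 : ZMod (p ^ r)) ^ 2 * t2 + t1 ^ 2 * t3 + t2 ^ 2 * t1 + t2 ^ 2 * t3 +
          t3 ^ 2 * t1 + t3 ^ 2 * t2) - 7560 * ((t1 : ZMod (p ^ r)) * t2 * t3)) * hC3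
  have h1 : T * (B' * C' ^ 3) = T * (B * C ^ 3 * (1 + (i2 - 3) * d)) := by
    linear_combination (cong_mul hB hC3) - 3 * i2 * B * C ^ 3 * hd2
  have h2 : T * (B' * C' ^ 3 * EE ((t1 : ZMod (p ^ r)) * C') (t2 * C') (t3 * C')) =
      T * (B * C ^ 3 * (E0 + ((i2 - 3) * E0 - K0) * d)) := by
    linear_combination (cong_mul h1 hE) - (i2 - 3) * K0 * B * C ^ 3 * hd2
  have h3 : T * (A' * (B' * C' ^ 3 * EE ((t1 : ZMod (p ^ r)) * C') (t2 * C') (t3 * C'))) =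
      T * (A * B * C ^ 3 * (E0 * (1 + i2 * a) + ((i2 - 3) * E0 - K0) * d)) := by
    linear_combination (cong_mul hA h2) +
      A * B * C ^ 3 * i2 * ((i2 - 3) * E0 - K0) * had
  rw [h3, ← ha, ← hd]
  linear_combination (T * A * B * C ^ 3 * K0 * (e * y' * H)) * eE

end Pool.Agent.Y948.R7
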